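import Pool.Agent.helper37.NA.Spec

/-!
# Row na:NTM (MP_baa4d7_al): the toggle for all `E'`
-/

set_option autoImplicit false

namespace Pool.Agent.NAB

open Pool.Agent.helper58.DC Pool.Agent.DI Pool.Agent.GR Pool.Agent.OB Pool.Agent.DR Pool.Agent.FI Pool.Agent.FI3 Pool.Agent.FI4 Pool.Agent.FI4I Pool.Agent.LE Pool.Agent.L5

theorem NTM_nrm {G : Type} [Group G] (R : Subgroup G) : nrm {R} = nz R := by
  unfold nrm
  simp

theorem NTM_comm {α β : Type} [Finite α] [Finite β] (S : Set α) (f : α → β → ℂ) :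
    ∑ᶠ a ∈ S, ∑ᶠ b, f a b = ∑ᶠ b, ∑ᶠ a ∈ S, f a b := by
  have := finsum_mem_comm f (Set.toFinite S) (Set.finite_univ (α := β))
  simpa only [finsum_mem_univ] using this

theorem NTM_pch {G : Type} [Group G] {p : ℕ} {R : Subgroup G} (hR : IsPGroup p R) :
    PCh p ⊤ R ({R} : Finset (Subgroup G)) where
  chain := by
    rw [Finset.coe_singleton]
    exact IsChain.singleton
  mem := Finset.mem_singleton_self R
  bot := fun Q hQ => (Finset.mem_singleton.1 hQ).ge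
  le := fun Q _ => le_top
  pg := fun Q hQ => by
    rw [Finset.mem_singleton.1 hQ]
    exact hR

theorem NTM_toggle {G : Type} [Group G] [Finite G] (p : ℕ) (R E : Subgroup G) (F : Subgroup G → ℂ)
    (hR : IsPGroup p R) (hnR : nz R = ⊤) (hF : ∀ K, ¬ E ≤ K → F K = 0)
    (h : ∑ᶠ C ∈ {C : Finset (Subgroup G) | PCh p ⊤ R C ∧ E ≤ nrm C},
      (-1 : ℂ) ^ (C.card + 1) * F (nz E ⊓ nrm C) = 0) :
    ∑ᶠ C ∈ {C : Finset (Subgroup G) | PCh p ⊤ R C ∧ C ≠ {R}},
      (-1 : ℂ) ^ (C.card + 1) * F (nrm C ⊓ nz E) = - F (nz E) := by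
  classical
  have : Fintype (Finset (Subgroup G)) := Fintype.ofFinite _
  rw [finsum_mem_def, finsum_eq_sum_of_fintype] at h ⊢
  simp only [Set.indicator_apply, Set.mem_ofPred_eq] at h ⊢
  have h1 : nrm ({R} : Finset (Subgroup G)) = ⊤ := by rw [NTM_nrm, hnR]
  have h2 : ∀ C : Finset (Subgroup G),
      (if PCh p ⊤ R C ∧ C ≠ {R} then (-1 : ℂ) ^ (C.card + 1) * F (nrm C ⊓ nz E) else 0) =
      (if PCh p ⊤ R C ∧ E ≤ nrm C then (-1 : ℂ) ^ (C.card + 1) * F (nz E ⊓ nrm C) else 0) -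
        (if C = {R} then F (nz E) else 0) := by
    intro C
    by_cases hC : C = {R}
    · subst hC
      rw [if_neg (fun h => h.2 rfl), if_pos rfl, if_pos ⟨NTM_pch hR, by rw [h1]; exact le_top⟩, h1,
        Finset.card_singleton, inf_top_eq]
      norm_num
    · rw [if_neg hC, sub_zero]
      by_cases hP : PCh p ⊤ R C
      · rw [if_pos ⟨hP, hC⟩]
        by_cases hE : E ≤ nrm C
        · rw [if_pos ⟨hP, hE⟩, inf_comm]
        · rw [if_neg (fun h => hE h.2), hF _ (fun h => hE (h.trans inf_le_left)), mul_zero]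
      · rw [if_neg (fun h => hP h.1), if_neg (fun h => hP h.1)]
  rw [Finset.sum_congr rfl (fun C _ => h2 C), Finset.sum_sub_distrib, h, Finset.sum_ite_eq',
    if_pos (Finset.mem_univ _), zero_sub]

theorem NTM (hNEG : NEG_stmt) (hNTG : NTG_stmt) (hNTC : NTC_stmt) (hNUH : NUH_stmt) (hNUE : NUE_stmt) (hFEQ : FEQ_stmt) (hB2 : B2_stmt) : NTM_stmt := by
  intro p e m M hM hme G _ _ χ hχ z x hU R hR hnR hzR
  have : Fact p.Prime := ⟨hM.pr⟩
  have hχ' : χ ∈ IrrOn (⊤ : Subgroup G) := IrrOn_top.2 hχ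
  obtain ⟨a1, -, a3, -⟩ := hNEG p e hM.pr G z
  have key : ∀ E' K : Subgroup G, lE p e m M (⊤ : Subgroup G) K E' χ ≠ 0 →
      E' ≤ K ∧ IsPGroup p E' ∧ ¬ E' ≤ R := by
    intro E' K hne
    have hB : (BE p e m M (⊤ : Subgroup G) K E' χ).Nonempty := by
      rw [Set.nonempty_iff_ne_empty]
      intro h0
      apply hne
      unfold lE
      rw [h0, finsum_mem_empty]
    obtain ⟨η, h1, h2, z', x', h3, h4⟩ := hB
    obtain ⟨-, b2, -, -, -, b6, -⟩ := hNEG p e hM.pr G z'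
    subst h4
    refine ⟨b2 K h3.zm, b6.1 h3.pe, fun hle => ?_⟩
    obtain ⟨l, -, hl⟩ := hNUH p e m M hM G ⊤ K le_top η h1 χ z x h2 hU
    obtain ⟨k, -, hk⟩ := hNUE p e m M hM hme G K η h1 _ _ _ _ hl h3
    rw [a1 l] at hk
    apply hzR
    rw [a3]
    have h5 : k * (l * z ^ p ^ (e - 1) * l⁻¹) * k⁻¹ ∈ Eg p e z' := by
      rw [hk, mem_cjS, mem_cjS]
      have h6 : l⁻¹ * (k⁻¹ * (k * (l * z ^ p ^ (e - 1) * l⁻¹) * k⁻¹) * k) * l = z ^ p ^ (e - 1) := by
        group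
      rw [h6]
      exact Subgroup.mem_zpowers _
    have h7 : ∀ g w : G, g * w * g⁻¹ ∈ R → w ∈ R := by
      intro g w hw
      have hg : g ∈ nz R := by rw [hnR]; exact Subgroup.mem_top g
      exact (Subgroup.mem_normalizer_iff.1 hg w).2 hw
    exact h7 l _ (h7 k _ (hle h5))
  have h2 : ∀ E' : Subgroup G,
      ∑ᶠ C ∈ {C : Finset (Subgroup G) | PCh p ⊤ R C ∧ C ≠ {R}}, (-1 : ℂ) ^ (C.card + 1) *
        ((Nat.card (nrm C ⊓ nz E' : Subgroup G) : ℂ) *
          lE p e m M (⊤ : Subgroup G) (nrm C ⊓ nz E') E' χ) =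
      - ((Nat.card (nz E' : Subgroup G) : ℂ) * lE p e m M (⊤ : Subgroup G) (nz E') E' χ) := by
    intro E'
    by_cases hz : ∀ K : Subgroup G, lE p e m M (⊤ : Subgroup G) K E' χ = 0
    · simp only [hz, mul_zero, neg_zero, finsum_zero]
    · rw [not_forall] at hz
      obtain ⟨K, hK⟩ := hz
      obtain ⟨-, hp, hnE⟩ := key E' K hK
      exact NTM_toggle p R E' (fun K => (Nat.card K : ℂ) * lE p e m M (⊤ : Subgroup G) K E' χ) hR hnR
        (fun K hK => by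
          by_contra hne
          have : lE p e m M (⊤ : Subgroup G) K E' χ ≠ 0 := fun h0 => hne (by
            show (Nat.card K : ℂ) * lE p e m M (⊤ : Subgroup G) K E' χ = 0
            rw [h0, mul_zero])
          exact hK (key E' K this).1)
        (hNTG G p R E' (fun K => (Nat.card K : ℂ) * lE p e m M (⊤ : Subgroup G) K E' χ) hp hnE)
  have h3 := hNTC p e m M hM hme G ⊤ χ hχ' z x hU
  simp only [top_inf_eq, Subgroup.card_top] at h3
  rw [← h3, ← finsum_neg_distrib]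
  have h4 : ∑ᶠ C ∈ {C : Finset (Subgroup G) | PCh p ⊤ R C ∧ C ≠ {R}}, (-1 : ℂ) ^ (C.card + 1) *
      ∑ᶠ E' : Subgroup G, (Nat.card (nrm C ⊓ nz E' : Subgroup G) : ℂ) *
        lE p e m M (⊤ : Subgroup G) (nrm C ⊓ nz E') E' χ =
      ∑ᶠ C ∈ {C : Finset (Subgroup G) | PCh p ⊤ R C ∧ C ≠ {R}}, ∑ᶠ E' : Subgroup G,
        (-1 : ℂ) ^ (C.card + 1) * ((Nat.card (nrm C ⊓ nz E' : Subgroup G) : ℂ) *
        lE p e m M (⊤ : Subgroup G) (nrm C ⊓ nz E') E' χ) :=
    finsum_mem_congr rfl fun C _ => mul_finsum _ _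
  rw [h4, NTM_comm]
  exact finsum_congr fun E' => h2 E'

end Pool.Agent.NAB
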