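import Pool.Agent.helper97.NA.SpecE

/-!
# Row nx:XUS (MP_baa4d7_al): blocks which are not stable contribute nothing
-/

set_option autoImplicit false

namespace Pool.Agent.NAB

open Pool.Agent.helper58.DC Pool.Agent.DI Pool.Agent.GR Pool.Agent.OB Pool.Agent.DR Pool.Agent.FI Pool.Agent.FI3 Pool.Agent.FI4 Pool.Agent.FI4I Pool.Agent.FI4E Pool.Agent.LE Pool.Agent.L5

theorem XUS (hBAA : BAA_stmt) (hQEI : QEI_stmt) (hFBC : FBC_stmt) (hTRN : TRN_stmt) (hB2 : B2_stmt) : XUS_stmt := by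
  intro p M hM G _ _ N H hHN α hH hN φ hns η hη hSB
  have hirr : funMap α η ∈ IrrOn H := by
    have h1 := (hBAA G M p α ⊥ ⊥ H η η η).2.2.1.1 hη
    rwa [hH] at h1
  by_contra hne
  have h1 : SB M H (funMap α η) η := by
    by_contra h2
    apply hne
    exact ((hQEI p M hM G H (Bl M H η) (hFBC p M hM G H η 1).1).2.1 η ⟨hη, SB.refl H η⟩
      (funMap α η) hirr (fun h3 => h2 h3.2)).2
  have h2 : SB M N (funMap α η) η := (hTRN G M H N hHN (funMap α η) η η
    (fun x hx => hirr.1 x hx) (fun x hx => hη.1 x hx) h1).1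
  have h3 := (hBAA G M p α ⊥ ⊥ N η φ φ).2.2.2.1.1 hSB
  rw [hN] at h3
  exact hns (h3.symm.trans (h2.trans hSB))

end Pool.Agent.NAB
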